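import Pool.Graph.R_seed8.Y939.SC.Several

/-!
# One germ for all monomial collisions, and dimensions up to a linear error
-/

set_option autoImplicit false

namespace Pool.Agent.H418.CO

open Polynomial Pool.Agent.H932R2 Pool.Agent.H932R3 Pool.Agent.TH545.CF

universe u v

/-- No polynomial with integral coefficients, not all of them zero in `K`, vanishes at `a`. -/
def Generic {K : Type u} [Field K] (a : ℕ → K) : Prop :=
  ∀ D : MvPolynomial ℕ ℤ, MvPolynomial.map (Int.castRingHom K) D ≠ 0 →
    MvPolynomial.aeval a D ≠ 0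

section translate

variable {K : Type u} [Field K]

theorem sum_coeff {r : ℕ} (q : K[X]) (hq : q.degree < r) :
    (∑ j : Fin r, C (q.coeff j) * X ^ (j : ℕ) : K[X]) = q := by
  rw [Fin.sum_univ_eq_sum_range (fun j => C (q.coeff j) * X ^ j : ℕ → K[X]) r]
  by_cases hq0 : q = 0
  · rw [hq0]; simp
  · exact (as_sum_range_C_mul_X_pow' _ ((natDegree_lt_iff_degree_lt hq0).2 hq)).symm

theorem sh_comp (c : K) (γ : K[X]) (f : K[X][X]) :
    sh c γ (sh (-c) (C 0) f) = sh 0 (γ.comp (X + C c)) f := by
  have h : (sh c γ).comp (sh (-c) (C 0)) = sh 0 (γ.comp (X + C c)) := by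
    refine ringHom_ext' (ringHom_ext' ?_ ?_) ?_
    · ext a
      simp [sh_C]
    · simp [sh_C]
    · simp [sh_X]
  exact congrArg (fun φ : K[X][X] →+* K[X][X] => φ f) h

theorem noForm_zero {r m d : ℕ} {c0 : K} {a0 : Fin r → K}
    (h : NoForm (jetIdeal m c0 a0) d) :
    ∃ b0 : Fin r → K, NoForm (jetIdeal m 0 b0) d := by
  obtain ⟨γ, hγ⟩ : ∃ γ : K[X], γ = ∑ j : Fin r, C (a0 j) * X ^ (j : ℕ) := ⟨_, rfl⟩
  have hdeg : γ.degree < r := by
    rw [hγ]
    refine (degree_sum_le _ _).trans_lt ?_
    rw [Finset.sup_lt_iff (by exact WithBot.bot_lt_coe r)]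
    intro j _
    refine (degree_C_mul_X_pow_le _ _).trans_lt ?_
    exact_mod_cast j.2
  have hdeg' : (γ.comp (X + C c0)).degree < r := by
    by_cases h0 : γ = 0
    · rw [h0, zero_comp, degree_zero]
      exact WithBot.bot_lt_coe r
    · have h1 : γ.natDegree < r := (natDegree_lt_iff_degree_lt h0).2 hdeg
      refine degree_le_natDegree.trans_lt ?_
      rw [natDegree_comp, natDegree_X_add_C, mul_one]
      exact_mod_cast h1
  refine ⟨fun j => (γ.comp (X + C c0)).coeff j, fun F hF hF' => ?_⟩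
  rw [jetIdeal_eq, sum_coeff _ hdeg', mem_cIdeal_iff] at hF'
  have h1 := h (tr (-c0) 0 F) ((MvPolynomial.mem_homogeneousSubmodule _ _).2
    (tr_homog ((MvPolynomial.mem_homogeneousSubmodule _ _).1 hF))) (by
    rw [jetIdeal_eq, ← hγ, mem_cIdeal_iff, deh_tr, sh_comp]
    exact hF')
  have h2 := tr_tr (-c0) 0 F
  rw [h1, map_zero] at h2
  exact h2.symm

end translate

section transfer

/-- putting `x_0 = 0` -/
noncomputable def subst (r : ℕ) : Fin (r + 1) → MvPolynomial ℕ ℤ :=
  Fin.cons 0 (fun j : Fin r => MvPolynomial.X (j : ℕ))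

theorem aeval_subst {M : Type u} [Field M] {r : ℕ} (e : ℕ → M) (D : MvPolynomial (Fin (r + 1)) ℤ) :
    MvPolynomial.aeval e (MvPolynomial.aeval (subst r) D) =
      MvPolynomial.aeval (Fin.cons 0 (fun j : Fin r => e j) : Fin (r + 1) → M) D := by
  have h : (MvPolynomial.aeval e).comp (MvPolynomial.aeval (subst r)) =
      (MvPolynomial.aeval (Fin.cons 0 (fun j : Fin r => e j) : Fin (r + 1) → M) :
        MvPolynomial (Fin (r + 1)) ℤ →ₐ[ℤ] M) := by
    refine MvPolynomial.algHom_ext fun i => ?_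
    refine Fin.cases ?_ (fun j => ?_) i
    · simp [subst]
    · simp [subst]
  exact AlgHom.congr_fun h D

/-- emptiness passes from one collision at the abscissa `0` to the collisions of a generic germ over
every field of the same characteristic -/
theorem generic_noForm {K : Type v} [Field K] {L : Type u} [Field L] (p : ℕ) [CharP K p]
    [CharP L p] {r m d : ℕ} {b0 : Fin r → K} (h : NoForm (jetIdeal m 0 b0) d)
    {a : ℕ → L} (ha : Generic a) :
    NoForm (jetIdeal m (0 : L) (fun j : Fin r => a j)) d := by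
  classical
  obtain ⟨b, hb⟩ := Pool.Agent.TH15.Nag.exists_rows
    (fun (q : EE r m) (s : Fin (Tfin d).card) =>
      MvPolynomial.aeval (Fin.cons 0 b0 : Fin (r + 1) → K) (entC r q.1 (enumM (Tfin d) s))) (by
    intro v hv
    exact noForm_iff'.1 h v ((mem_jetIdeal _ v).2 hv))
  let D : MvPolynomial (Fin (r + 1)) ℤ :=
    (Matrix.of fun (j s : Fin (Tfin d).card) => entC r (b j).1 (enumM (Tfin d) s)).det
  let D' : MvPolynomial ℕ ℤ := MvPolynomial.aeval (subst r) D
  have hDK : MvPolynomial.aeval (Fin.cons 0 b0 : Fin (r + 1) → K) D ≠ 0 := by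
    intro h0
    apply hb
    refine Eq.trans ?_ h0
    show _ = (MvPolynomial.aeval (Fin.cons 0 b0 : Fin (r + 1) → K)) (Matrix.det _)
    rw [AlgHom.map_det]
    rfl
  have hD' : MvPolynomial.map (Int.castRingHom L) D' ≠ 0 := by
    intro h1
    apply hDK
    have h2 : ∀ α, ((MvPolynomial.coeff α D' : ℤ) : K) = 0 := by
      intro α
      have h3 := congrArg (MvPolynomial.coeff α) h1
      rw [MvPolynomial.coeff_map, MvPolynomial.coeff_zero, eq_intCast,
        CharP.intCast_eq_zero_iff L p] at h3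
      rw [CharP.intCast_eq_zero_iff K p]
      exact h3
    have h3 : MvPolynomial.map (Int.castRingHom K) D' = 0 := by
      ext α
      rw [MvPolynomial.coeff_map, MvPolynomial.coeff_zero]
      exact h2 α
    obtain ⟨e, he⟩ : ∃ e : ℕ → K, (fun j : Fin r => e j) = b0 :=
      ⟨fun n => if h : n < r then b0 ⟨n, h⟩ else 0, by
        funext j
        simp⟩
    have h4 : MvPolynomial.aeval e D' =
        MvPolynomial.eval e (MvPolynomial.map (Int.castRingHom K) D') := by
      rw [MvPolynomial.eval_map, MvPolynomial.aeval_def]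
      congr 1
    rw [← he, ← aeval_subst e D, h4, h3, map_zero]
  have hL := ha D' hD'
  rw [aeval_subst a D] at hL
  have hdet : (Matrix.of fun (j s : Fin (Tfin d).card) =>
      MvPolynomial.aeval (Fin.cons 0 (fun j : Fin r => a j) : Fin (r + 1) → L)
        (entC r (b j).1 (enumM (Tfin d) s))).det ≠ 0 := by
    intro h0
    apply hL
    refine Eq.trans ?_ h0
    show (MvPolynomial.aeval (Fin.cons 0 (fun j : Fin r => a j) : Fin (r + 1) → L))
      (Matrix.det _) = _
    rw [AlgHom.map_det]
    rfl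
  refine noForm_iff'.2 fun v hv => ?_
  rw [mem_jetIdeal] at hv
  apply Matrix.eq_zero_of_mulVec_eq_zero hdet
  funext j
  rw [Matrix.mulVec, dotProduct, Pi.zero_apply]
  exact hv (b j)

/-- Nagata's inequality for the collisions of a generic germ -/
theorem generic_empty {L : Type u} [Field L] {a : ℕ → L} (ha : Generic a) {r m d : ℕ} (hr : 9 < r)
    (hm : 1 ≤ m) (hd : (d : ℝ) ≤ m * Real.sqrt r) :
    NoForm (jetIdeal m (0 : L) (fun j : Fin r => a j)) d := by
  obtain ⟨p, hp⟩ := CharP.exists L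
  have hp' : p = 0 ∨ p.Prime := (CharP.char_is_prime_or_zero L p).symm
  have hrR : (0 : ℝ) ≤ r := Nat.cast_nonneg r
  have hc : Pool.Agent.Y939.SC.Cond (ι := Unit) (fun _ => r) (fun _ => m) d := by
    right
    refine ⟨by simpa using hr, ?_⟩
    simp only [Finset.univ_unique, Finset.sum_const, Finset.card_singleton, one_smul]
    push_cast
    calc Real.sqrt r * d ≤ Real.sqrt r * (m * Real.sqrt r) :=
          mul_le_mul_of_nonneg_left hd (Real.sqrt_nonneg _)
      _ = (Real.sqrt r * Real.sqrt r) * m := by ring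
      _ = r * m := by rw [Real.mul_self_sqrt hrR]
  obtain ⟨K, _, _, c0, a0, h0⟩ := Pool.Agent.Y939.SC.exists_config hp' (ι := Unit)
    (r := fun _ => r) (m := fun _ => m) (fun _ => by omega)
    (by simpa using Nat.mul_pos (by omega : 0 < r) hm) hc
  have h1 : NoForm (jetIdeal m (c0 ()) (a0 ())) d := by
    refine h0.anti ?_
    intro f hf
    rw [Pool.Agent.Y939.SC.mem_jets_iff]
    intro i
    exact hf
  obtain ⟨b0, hb0⟩ := noForm_zero h1
  exact generic_noForm p hb0 ha

/-- Nagata's inequality for general collisions -/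
theorem general {k : Type u} [Field k] {r m : ℕ} (hr : 9 < r) (hm : 1 ≤ m) :
    ∃ F : MvPolynomial (Fin (r + 1)) k, F ≠ 0 ∧ ∀ (c : k) (a : Fin r → k),
      MvPolynomial.eval (Fin.cons c a : Fin (r + 1) → k) F ≠ 0 →
        ∀ d : ℕ, (d : ℝ) ≤ m * Real.sqrt r → NoForm (jetIdeal m c a) d := by
  obtain ⟨p, hp⟩ := CharP.exists k
  have hp' : p = 0 ∨ p.Prime := (CharP.char_is_prime_or_zero k p).symm
  have hpos : 0 ≤ m * Real.sqrt r := by positivity
  obtain ⟨D, hD⟩ : ∃ D : ℕ, D = ⌊m * Real.sqrt r⌋₊ := ⟨_, rfl⟩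
  have hD1 : (D : ℝ) ≤ m * Real.sqrt r := by rw [hD]; exact Nat.floor_le hpos
  have hrR : (0 : ℝ) ≤ r := Nat.cast_nonneg r
  have hc : Pool.Agent.Y939.SC.Cond (ι := Unit) (fun _ => r) (fun _ => m) D := by
    right
    refine ⟨by simpa using hr, ?_⟩
    simp only [Finset.univ_unique, Finset.sum_const, Finset.card_singleton, one_smul]
    push_cast
    calc Real.sqrt r * D ≤ Real.sqrt r * (m * Real.sqrt r) :=
          mul_le_mul_of_nonneg_left hD1 (Real.sqrt_nonneg _)
      _ = (Real.sqrt r * Real.sqrt r) * m := by ring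
      _ = r * m := by rw [Real.mul_self_sqrt hrR]
  obtain ⟨K, _, _, c0, a0, h0⟩ := Pool.Agent.Y939.SC.exists_config hp' (ι := Unit)
    (r := fun _ => r) (m := fun _ => m) (fun _ => by omega)
    (by simpa using Nat.mul_pos (by omega : 0 < r) hm) hc
  have h1 : NoForm (jetIdeal m (c0 ()) (a0 ())) D := by
    refine h0.anti ?_
    intro f hf
    rw [Pool.Agent.Y939.SC.mem_jets_iff]
    intro i
    exact hf
  obtain ⟨F, hF, h⟩ := coll_transfer (L := k) p h1
  refine ⟨F, hF, fun c a hca d hd => (h c a hca).mono ?_⟩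
  rw [hD]
  exact Nat.le_floor hd

end transfer

section dimension

variable {K : Type u} [Field K]

theorem card_Tfin_choose (d : ℕ) : (Tfin d).card = (d + 2).choose 2 := by
  have h4 := card_Tfin d
  have h5 : (d + 2).choose 2 * 2 = (d + 2) * (d + 1) := by
    rw [Nat.choose_two_right, Nat.div_mul_cancel (Nat.even_mul_pred_self _).two_dvd]
    rfl
  linarith

instance finiteDimensional_mspan (d : ℕ) : FiniteDimensional K ↥(mspan K (Tset d)) := by
  rw [← coe_Tfin, mspan_eq_range]
  exact FiniteDimensional.span_of_finite K (Set.finite_range _)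

theorem finrank_mspan (d : ℕ) :
    Module.finrank K ↥(mspan K (Tset d)) = (d + 2).choose 2 := by
  rw [← card_Tfin_choose, ← coe_Tfin]
  have h1 : mspan K (↑(Tfin d) : Set (ℕ × ℕ)) = LinearMap.range (coordMap K (Tfin d)) := by
    ext f
    rw [mem_mspan_iff, LinearMap.mem_range]
  rw [h1, LinearMap.finrank_range_of_inj (coordMap_inj _), Module.finrank_fin_fun]

/-- the space of forms of degree `d` with affine part in `J` -/
noncomputable def forms (J : Ideal K[X][X]) (d : ℕ) : Submodule K (MvPolynomial (Fin 3) K) :=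
  MvPolynomial.homogeneousSubmodule (Fin 3) K d ⊓
    (Submodule.restrictScalars K J).comap (deh K).toLinearMap

theorem finrank_forms_eq (J : Ideal K[X][X]) (d : ℕ) :
    Module.finrank K ↥(forms J d) =
      Module.finrank K ↥(mspan K (Tset d) ⊓ Submodule.restrictScalars K J) :=
  finrank_forms _ _ fun _ _ => Iff.rfl

theorem upper {J : Ideal K[X][X]} {D d : ℕ} (h : NoForm J D) (hd : D ≤ d) :
    Module.finrank K ↥(forms J d) + (D + 2).choose 2 ≤ (d + 2).choose 2 := by
  rw [finrank_forms_eq, ← finrank_mspan (K := K) D, ← finrank_mspan (K := K) d]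
  have h1 := Submodule.finrank_sup_add_finrank_inf_eq
    (mspan K (Tset d) ⊓ Submodule.restrictScalars K J) (mspan K (Tset D))
  have h2 : (mspan K (Tset d) ⊓ Submodule.restrictScalars K J) ⊓ mspan K (Tset D) = ⊥ := by
    rw [eq_bot_iff]
    rintro f ⟨⟨-, hf⟩, hf'⟩
    obtain ⟨F, hF, rfl⟩ := exists_form hf'
    rw [h F hF hf, map_zero]
    exact Submodule.zero_mem _
  rw [h2, finrank_bot, add_zero] at h1
  rw [← h1]
  refine Submodule.finrank_mono (sup_le inf_le_left ?_)
  exact mspan_mono (Tset_mono hd)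

theorem le_ker {N : ℕ} {E : Type*} [Fintype E] (L : (Fin N → K) →ₗ[K] (E → K)) :
    N ≤ Module.finrank K (LinearMap.ker L) + Fintype.card E := by
  have h1 := LinearMap.finrank_range_add_finrank_ker L
  rw [Module.finrank_fin_fun] at h1
  have h2 : Module.finrank K (LinearMap.range L) ≤ Fintype.card E := by
    refine (Submodule.finrank_le _).trans ?_
    rw [Module.finrank_fintype_fun_eq_card]
  omega

theorem lower (r m : ℕ) (c : K) (a : Fin r → K) (d : ℕ) :
    (d + 2).choose 2 ≤ Module.finrank K ↥(forms (jetIdeal m c a) d) + r * (m + 1).choose 2 := by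
  rw [finrank_forms_eq, ← card_Tfin_choose, ← card_EE_eq', ← coe_Tfin]
  have h1 := le_ker ((condMap r m c (∑ j : Fin r, C (a j) * X ^ (j : ℕ))).comp
    (coordMap K (Tfin d)))
  rw [Fintype.card_coe] at h1
  refine h1.trans (Nat.add_le_add_right ?_ _)
  have : FiniteDimensional K ↥(mspan K (↑(Tfin d) : Set (ℕ × ℕ))) := by
    rw [mspan_eq_range]
    exact FiniteDimensional.span_of_finite K (Set.finite_range _)
  have hmem : ∀ f : Fin (Tfin d).card → K,
      (condMap r m c (∑ j : Fin r, C (a j) * X ^ (j : ℕ))).comp (coordMap K (Tfin d)) f = 0 →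
      coordMap K (Tfin d) f ∈ jetIdeal m c a := by
    intro f hf
    rw [jetIdeal_eq]
    exact mem_cIdeal_iff'.2 hf
  refine LinearMap.finrank_le_finrank_of_injective
    (f := ({ toFun := fun f => ⟨coordMap K (Tfin d) f.1, (mem_mspan_iff _ _).2 ⟨f.1, rfl⟩,
              hmem f.1 f.2⟩
             map_add' := fun f g => Subtype.ext (map_add _ _ _)
             map_smul' := fun t f => Subtype.ext (map_smul _ _ _) } :
      LinearMap.ker ((condMap r m c (∑ j : Fin r, C (a j) * X ^ (j : ℕ))).comp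
        (coordMap K (Tfin d))) →ₗ[K]
      ↥(mspan K (↑(Tfin d) : Set (ℕ × ℕ)) ⊓ Submodule.restrictScalars K (jetIdeal m c a)))) ?_
  intro f g hfg
  exact Subtype.ext (coordMap_inj _ (congrArg Subtype.val hfg))

end dimension

end Pool.Agent.H418.CO
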